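import Pool.Agent.H907.ETNeg
import Pool.Agent.H907.ETPos8

set_option autoImplicit false

/-!
# MP_b1acb3_co: complete graphs
-/

namespace Pool.Agent.Results.MP_b1acb3_co.CompleteGraphs

open Pool.Agent.H907.ET

/-- The complete graph on `r` vertices has the property of Erdős and Tuza if and only if `r ≤ 3`,
and for `r ≥ 4` it fails even for colourings in which each colour has at each vertex the degree
`n / k` or `n / k - 1`, where `k` is the number of colours. -/
theorem result (r : ℕ) : (Forced (⊤ : SimpleGraph (Fin r)) ↔ r ≤ 3) ∧
    (4 ≤ r → Fails (⊤ : SimpleGraph (Fin r))) := by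
  refine ⟨⟨fun h => ?_, fun h => ?_⟩, fun h => complete_fails h⟩
  · by_contra hcon
    exact (complete_fails (r := r) (by omega)).not_forced h
  · refine small_core_forced _ fun T _ => ?_
    have h1 := ncard_induce_le (⊤ : SimpleGraph (Fin r)) T
    rw [ncard_top] at h1
    refine h1.trans ?_
    interval_cases r <;> decide

end Pool.Agent.Results.MP_b1acb3_co.CompleteGraphs
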