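import Pool.Agent.H907.ETEven

set_option autoImplicit false

/-!
# MP_b1acb3_co: even graphs with `2 ^ a - 2` edges
-/

namespace Pool.Agent.Results.MP_b1acb3_co.EvenGraphs

open Pool.Agent.H907.ET

/-- Let `G` be a finite graph with `2 ^ a - 2` edges, `a ≥ 2`, in which all degrees are even and
every edge lies in a triangle. Then `G` does not have the property of Erdős and Tuza; for example
the disjoint union of `t` triangles fails whenever `3 t + 2` is a power of two. -/
theorem result (a : ℕ) (ha : 2 ≤ a) :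
    (∀ (V : Type) [Finite V] (G : SimpleGraph V),
      (∀ u v, G.Adj u v → ∃ w, G.Adj u w ∧ G.Adj v w) → (∀ v, Even (G.neighborSet v).ncard) →
      G.edgeSet.ncard + 2 = 2 ^ a → Fails G ∧ ¬ Forced G) ∧
    ∀ t : ℕ, 3 * t + 2 = 2 ^ a → Fails (triangles t) ∧ ¬ Forced (triangles t) :=
  ⟨fun _ _ _ h1 h2 h3 => ⟨even_fails h1 h2 ha h3, (even_fails h1 h2 ha h3).not_forced⟩,
    fun _ h => ⟨triangles_fail ha h, (triangles_fail ha h).not_forced⟩⟩

end Pool.Agent.Results.MP_b1acb3_co.EvenGraphs
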