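import Pool.Agent.H907.ETBip8

set_option autoImplicit false

/-!
# MP_b1acb3_co: joins with large independent sets, complete multipartite graphs
-/

namespace Pool.Agent.Results.MP_b1acb3_co.MultipartiteGraphs

open Pool.Agent.H907.ET

/-- Let `G` be a graph with sufficiently many vertices in which some independent set `T` with at
least half of the vertices is completely joined to the rest (for example `K_{s,t}`). Then `G` has
the property of Erdős and Tuza if and only if at most one vertex lies outside `T`, that is, if `G`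
is a star or has no edges. The same holds for all complete multipartite graphs with sufficiently
many vertices. -/
theorem result : ∃ C : ℕ,
    (∀ (V : Type) [Finite V] (G : SimpleGraph V) (T : Set V), C ≤ Nat.card V →
      Tᶜ.ncard ≤ T.ncard → (∀ a ∈ T, ∀ b ∈ T, ¬ G.Adj a b) →
      (∀ a ∈ T, ∀ b, b ∉ T → G.Adj a b) →
      (Forced G ↔ Tᶜ.ncard ≤ 1) ∧ (2 ≤ Tᶜ.ncard → Fails G)) ∧
    ∀ (V K : Type) [Finite V] (P : V → K), C ≤ Nat.card V →
      (Forced (multi P) ↔ ∃ k, {v | P v ≠ k}.ncard ≤ 1) ∧
      ((¬ ∃ k, {v | P v ≠ k}.ncard ≤ 1) → Fails (multi P)) := by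
  obtain ⟨C₁, h₁⟩ := join_set_fails
  obtain ⟨C₂, h₂⟩ := multi_fails
  refine ⟨C₁ + C₂, ?_, ?_⟩
  · intro V _ G T hV hle hT1 hT2
    have h : 2 ≤ Tᶜ.ncard → Fails G := fun h2 => h₁ V G T (by omega) hle h2 hT1 hT2
    refine ⟨⟨fun hf => ?_, fun h3 => star_set_forced G T h3 hT1⟩, h⟩
    by_contra hcon
    exact (h (by omega)).not_forced hf
  · intro V K _ P hV
    have h : (¬ ∃ k, {v | P v ≠ k}.ncard ≤ 1) → Fails (multi P) := by
      intro h
      push Not at h
      exact h₂ V K P (by omega) fun k => h k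
    refine ⟨⟨fun hf => ?_, fun ⟨k, hk⟩ => star_forced P k hk⟩, h⟩
    by_contra hcon
    exact (h hcon).not_forced hf

end Pool.Agent.Results.MP_b1acb3_co.MultipartiteGraphs
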