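import Pool.Agent.H907.ETPos8

set_option autoImplicit false

/-!
# MP_b1acb3_co: graphs whose core has at most five edges
-/

namespace Pool.Agent.Results.MP_b1acb3_co.SmallCores

open Pool.Agent.H907.ET

/-- If every set of vertices of the finite graph `G` in which each vertex has at least two
neighbours spans at most five edges, then `G` has the property of Erdős and Tuza. -/
theorem result {V : Type} [Finite V] (G : SimpleGraph V)
    (h : ∀ T : Finset V, (∀ v ∈ T, 2 ≤ {w ∈ (T : Set V) | G.Adj v w}.ncard) →
      (G.induce (T : Set V)).edgeSet.ncard ≤ 5) : Forced G :=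
  small_core_forced G h

end Pool.Agent.Results.MP_b1acb3_co.SmallCores
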